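import Mathlib
set_option autoImplicit false
open Set
namespace Pool.Agent.Results.MP_6e33d6_co.Yes

noncomputable def dim (k : ℕ) (P : Type) [PartialOrder P] : ℕ :=
  sInf {n | Nonempty (P ↪o (Fin n → Fin k))}

lemma pad {k n t : ℕ} {P : Type} [PartialOrder P] (h : n ≤ t)
    (f : P ↪o (Fin n → Fin (k + 2))) : Nonempty (P ↪o (Fin t → Fin (k + 2))) :=
  ⟨.ofMapLEIff (fun x r => if h : r.1 < n then f x ⟨r, h⟩ else 0) fun a b => by
    rw [← f.le_iff_le]
    refine ⟨fun H r => by simpa using H ⟨r, by omega⟩, fun H r => ?_⟩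
    dsimp only
    split_ifs
    exacts [H _, le_rfl]⟩

lemma emb (k : ℕ) (P : Type) [PartialOrder P] [Fintype P] :
    Nonempty (P ↪o (Fin (Fintype.card P) → Fin (k + 2))) := by
  classical
  let e := (Fintype.equivFin P).symm
  refine ⟨.ofMapLEIff (fun x r => if e r ≤ x then 1 else 0) fun a b => ⟨fun H => ?_, fun H r => ?_⟩⟩
  · by_contra k'
    have := H (e.symm a)
    simp [k'] at this
  · dsimp only
    by_cases q : e r ≤ a
    · simp [q, q.trans H]
    · simp [q]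

lemma low {k t : ℕ} {R I : Type} [PartialOrder R] [Fintype I] (f : R ↪o (Fin t → Fin (k + 2)))
    (α β : I → R) (h1 : ∀ i, ¬α i ≤ β i) (h2 : ∀ i j, i ≠ j → α i ≤ β j ∨ α j ≤ β i) :
    Fintype.card I ≤ t * (k + 1) := by
  have (i : I) : ∃ r, f (β i) r < f (α i) r := by
    by_contra! q
    exact h1 i (f.le_iff_le.1 q)
  choose c hc using this
  have := Fintype.card_le_of_injective (fun i => ((c i, ⟨(f (β i) (c i)).1, by
    have := hc i
    omega⟩) : Fin t × Fin (k + 1))) fun i j e => by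
      simp only [Prod.mk.injEq, Fin.mk.injEq] at e
      by_contra q
      have a := hc i
      have b := hc j
      rw [← e.1] at b
      have e2 := e.2
      rw [← e.1] at e2
      rcases h2 i j q with w | w
      · have : f (α i) (c i) ≤ f (β j) (c i) := f.le_iff_le.2 w (c i)
        omega
      · have : f (α j) (c i) ≤ f (β i) (c i) := f.le_iff_le.2 w (c i)
        omega
  simpa using this

variable {P : Type} [PartialOrder P]

def dn (x : P) : Set (P ⊕ (P ⊕ Fin 3)) := {c | ∃ z ≤ x, c = .inl z}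
def yy (x : P) : Set (P ⊕ (P ⊕ Fin 3)) :=
  {c | (∃ z, ¬x ≤ z ∧ c = .inl z) ∨ c = .inr (.inl x) ∨ c = .inr (.inr 0)}
def BB (P : Type) [PartialOrder P] : Set (Set (P ⊕ (P ⊕ Fin 3))) :=
  {A | (∃ x, A = dn x) ∨ (∃ x, A = yy x) ∨ (∃ s, A = {.inr s}) ∨ ∃ s, A = {.inr s}ᶜ}

lemma drop {x : P} {A B : Set (P ⊕ (P ⊕ Fin 3))} (hA : A ∈ BB P) (hB : B ∈ BB P) (h : A ≠ dn x) :
    (∃ c ∈ A, c ≠ .inl x) ∧ ((∀ c ∈ A, c ≠ .inl x → c ∈ B) → A ⊆ B) := by
  have (s : P ⊕ Fin 3) : ∃ i : Fin 3, i ≠ 0 ∧ s ≠ .inr i := by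
    by_cases q : s = .inr 1
    · exact ⟨2, by decide, by simp [q]⟩
    · exact ⟨1, by decide, q⟩
  constructor
  · rcases hA with ⟨w, rfl⟩ | ⟨w, rfl⟩ | ⟨s, rfl⟩ | ⟨s, rfl⟩
    · exact ⟨.inl w, ⟨w, le_rfl, rfl⟩, fun e => h (by rw [Sum.inl.inj e])⟩
    · exact ⟨.inr (.inl w), by simp [yy], by simp⟩
    · exact ⟨.inr s, rfl, by simp⟩
    · obtain ⟨i, -, hi⟩ := this s
      exact ⟨.inr (.inr i), by simpa using hi.symm, by simp⟩
  intro H c hc
  by_contra q
  have e : c = .inl x := by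
    by_contra e
    exact q (H c hc e)
  subst e
  rcases hA with ⟨w, rfl⟩ | ⟨w, rfl⟩ | ⟨s, rfl⟩ | ⟨s, rfl⟩
  · have a := H (.inl w) ⟨w, le_rfl, rfl⟩ fun e => h (by rw [Sum.inl.inj e])
    have b : x ≤ w := by simpa [dn] using hc
    rcases hB with ⟨v, rfl⟩ | ⟨v, rfl⟩ | ⟨s, rfl⟩ | ⟨s, rfl⟩
    · exact q ⟨x, b.trans (by simpa [dn] using a), rfl⟩
    · simp only [yy, mem_ofPred_eq, Sum.inl.injEq, exists_eq_right', reduceCtorEq, or_false,
        not_not] at a q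
      exact a (q.trans b)
    · simp at a
    · simp at q
  · have a := H (.inr (.inl w)) (by simp [yy]) (by simp)
    have b := H (.inr (.inr 0)) (by simp [yy]) (by simp)
    rcases hB with ⟨v, rfl⟩ | ⟨v, rfl⟩ | ⟨s, rfl⟩ | ⟨s, rfl⟩
    · simp [dn] at a
    · have : w = v := by simpa [yy] using a
      exact q (this ▸ hc)
    · simp only [mem_singleton_iff, Sum.inr.injEq] at a b
      simp [← a] at b
    · simp at q
  · simp at hc
  · obtain ⟨i, h0, hi⟩ := this s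
    have a := H (.inr (.inr i)) (by simpa using hi.symm) (by simp)
    have b : ∃ s', s' ≠ s ∧ s' ≠ .inr i := by
      by_cases q : s = .inr 0
      · refine ⟨.inl x, by simp [q], by simp⟩
      · exact ⟨.inr 0, Ne.symm q, by simpa using h0.symm⟩
    obtain ⟨s', b1, b2⟩ := b
    have b := H (.inr s') (by simpa) (by simp)
    rcases hB with ⟨v, rfl⟩ | ⟨v, rfl⟩ | ⟨s, rfl⟩ | ⟨s, rfl⟩
    · simp [dn] at a
    · simp [yy, h0] at a
    · simp only [mem_singleton_iff, Sum.inr.injEq] at a b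
      exact b2 (b.trans a.symm)
    · simp at q

theorem result (k : ℕ) (hk : 2 ≤ k) (P : Type) [PartialOrder P] [Fintype P] :
    ∃ (Q : Type) (_ : PartialOrder Q) (_ : Fintype Q), Nonempty (P ↪o Q) ∧ dim k P < dim k Q ∧
      ∀ x : Q, dim k {y // y ≠ x} < dim k Q := by
  classical
  obtain ⟨j, rfl⟩ := Nat.exists_eq_add_of_le' hk
  obtain ⟨t, ht⟩ : ∃ t, t = 2 * Fintype.card P + 2 := ⟨_, rfl⟩
  let X := Fin (j * t + 1) ⊕ₗ Set (P ⊕ (P ⊕ Fin 3))
  let L : Fin (j * t + 1) → X := fun i => toLex (.inl i)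
  let U : Set (P ⊕ (P ⊕ Fin 3)) → X := fun A => toLex (.inr A)
  let R : Set X := range L ∪ U '' BB P
  have LL {a b} : L a ≤ L b ↔ a ≤ b := Sum.Lex.inl_le_inl_iff
  have UU {a b} : U a ≤ U b ↔ a ⊆ b := Sum.Lex.inr_le_inr_iff
  have LU (a b) : L a ≤ U b := Sum.Lex.inl_le_inr a b
  have UL {a b} : ¬U a ≤ L b := Sum.Lex.not_inr_le_inl
  have h0 : ¬Nonempty (R ↪o (Fin t → Fin (j + 2))) := by
    rintro ⟨f⟩
    let l (i) : R := ⟨L i, Or.inl ⟨i, rfl⟩⟩
    let u (A) (h : A ∈ BB P) : R := ⟨U A, Or.inr ⟨A, h, rfl⟩⟩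
    have := low (I := Fin (j * t) ⊕ (P ⊕ (P ⊕ Fin 3))) f
      (Sum.elim (fun i => l i.succ) (Sum.elim (fun x => u (dn x) (Or.inl ⟨x, rfl⟩))
        fun s => u {.inr s} (Or.inr (Or.inr (Or.inl ⟨s, rfl⟩)))))
      (Sum.elim (fun i => l i.castSucc) (Sum.elim (fun x => u (yy x) (Or.inr (Or.inl ⟨x, rfl⟩)))
        fun s => u {.inr s}ᶜ (Or.inr (Or.inr (Or.inr ⟨s, rfl⟩))))) ?_ ?_
    · simp only [Fintype.card_sum, Fintype.card_fin] at this
      nlinarith
    · rintro (i | x | s) q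
      · exact (LL.1 q).not_gt i.castSucc_lt_succ
      · simpa [yy] using UU.1 q ⟨x, le_rfl, rfl⟩
      · simpa using UU.1 q rfl
    · rintro (i | x | s) (i' | x' | s') q
      · refine (lt_or_gt_of_ne fun e : i = i' => q (by rw [e])).imp (fun w => LL.2 w) fun w => LL.2 w
      · exact Or.inl (LU _ _)
      · exact Or.inl (LU _ _)
      · exact Or.inr (LU _ _)
      · have (a b : P) (h : ¬b ≤ a) : dn a ⊆ yy b := by
          rintro _ ⟨z, hz, rfl⟩
          exact Or.inl ⟨z, fun w => h (w.trans hz), rfl⟩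
        by_cases w : x' ≤ x
        · exact Or.inr (UU.2 (this _ _ fun w' => q (by rw [w.antisymm w'])))
        · exact Or.inl (UU.2 (this _ _ w))
      · exact Or.inl (UU.2 (by rintro _ ⟨z, -, rfl⟩; simp))
      · exact Or.inr (LU _ _)
      · exact Or.inr (UU.2 (by rintro _ ⟨z, -, rfl⟩; simp))
      · exact Or.inl (UU.2 (by simpa using q.symm))
  have h1 (x : P) : Nonempty ((R \ {U (dn x)} : Set X) ↪o (Fin t → Fin (j + 2))) := by
    have e : Fin t ≃ {c : P ⊕ (P ⊕ Fin 3) // c ≠ .inl x} := (Fintype.equivFinOfCardEq (by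
      simp only [Fintype.card_subtype_compl, Fintype.card_sum, Fintype.card_fin,
        Fintype.card_unique]
      omega)).symm
    let F : X → Fin t → Fin (j + 2) := fun z r => Sum.elim
      (fun i => ⟨min j (i.1 - r.1 * j), by omega⟩)
      (fun A => ⟨j + if (e r).1 ∈ A then 1 else 0, by split_ifs <;> omega⟩) (ofLex z)
    refine ⟨.ofMapLEIff (fun z => F z.1) ?_⟩
    rintro ⟨_, ⟨i, rfl⟩ | ⟨A, hA, rfl⟩, a⟩ ⟨_, ⟨i', rfl⟩ | ⟨B, hB, rfl⟩, b⟩
    · refine ⟨fun H => LL.2 ?_, fun H r => ?_⟩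
      · by_contra! q
        have q1 : i'.1 < i.1 := q
        have q2 := i.2
        have j0 : 0 < j := Nat.pos_of_ne_zero fun e => by
          have : j * t = 0 := by simp [e]
          omega
        have := H ⟨i'.1 / j, (Nat.div_lt_iff_lt_mul j0).2 (by rw [mul_comm t]; omega)⟩
        have w1 := Nat.div_add_mod' i'.1 j
        have w2 := Nat.mod_lt i'.1 j0
        change min j (i.1 - i'.1 / j * j) ≤ min j (i'.1 - i'.1 / j * j) at this
        omega
      · have : i.1 ≤ i'.1 := LL.1 H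
        change min j (i.1 - r.1 * j) ≤ min j (i'.1 - r.1 * j)
        omega
    · refine iff_of_true (fun r => ?_) (LU _ _)
      change min j (i.1 - r.1 * j) ≤ j + _
      omega
    · refine iff_of_false (fun H => ?_) UL
      obtain ⟨c, c1, c2⟩ := (drop hA hA fun e => a (by rw [e]; rfl)).1
      have := H (e.symm ⟨c, c2⟩)
      change j + (if (e (e.symm ⟨c, c2⟩)).1 ∈ A then 1 else 0) ≤ min j _ at this
      rw [e.apply_symm_apply, if_pos c1] at this
      omega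
    · refine ⟨fun H => UU.2 ((drop hA hB fun e => a (by rw [e]; rfl)).2 fun c c1 c2 => ?_),
        fun H r => ?_⟩
      · have := H (e.symm ⟨c, c2⟩)
        change j + (if (e (e.symm ⟨c, c2⟩)).1 ∈ A then 1 else 0) ≤
          j + (if (e (e.symm ⟨c, c2⟩)).1 ∈ B then 1 else 0) at this
        rw [e.apply_symm_apply, if_pos c1] at this
        by_contra q
        rw [if_neg q] at this
        omega
      · change j + (if (e r).1 ∈ A then 1 else 0) ≤ j + (if (e r).1 ∈ B then 1 else 0)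
        by_cases q : (e r).1 ∈ A
        · rw [if_pos q, if_pos (UU.1 H q)]
        · rw [if_neg q]
          omega
  obtain ⟨Q, ⟨q1, q2⟩, q3⟩ := exists_minimal_of_wellFoundedLT
    (fun Q : Set X => Q ⊆ R ∧ ¬Nonempty (Q ↪o (Fin t → Fin (j + 2)))) ⟨R, Subset.rfl, h0⟩
  have inc {A B : Set X} (h : A ⊆ B) : A ↪o B := .ofMapLEIff (inclusion h) fun _ _ => Iff.rfl
  have m (x : P) : U (dn x) ∈ Q := by
    by_contra q
    obtain ⟨f⟩ := h1 x
    exact q2 ⟨(inc (B := R \ {U (dn x)}) fun z hz => ⟨q1 hz, fun e => q (e ▸ hz)⟩).trans f⟩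
  have d : t < dim (j + 2) Q := by
    by_contra! q
    obtain ⟨f⟩ := Nat.sInf_mem (s := {n | Nonempty (Q ↪o (Fin n → Fin (j + 2)))})
      ⟨_, emb j Q⟩
    exact q2 (pad q f)
  refine ⟨Q, inferInstance, inferInstance, ⟨.ofMapLEIff (fun x => ⟨_, m x⟩) fun a b => ?_⟩,
    lt_of_le_of_lt ((Nat.sInf_le (emb j P)).trans (by omega)) d, fun x => lt_of_le_of_lt ?_ d⟩
  · refine UU.trans ⟨fun H => by simpa [dn] using H ⟨a, le_rfl, rfl⟩, ?_⟩
    rintro H _ ⟨z, hz, rfl⟩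
    exact ⟨z, hz.trans H, rfl⟩
  · refine Nat.sInf_le ?_
    by_contra q
    refine (q3 (y := Q \ {x.1}) ⟨sdiff_subset.trans q1, fun ⟨f⟩ => q ⟨.trans (OrderEmbedding.ofMapLEIff
      (fun z => ⟨z.1.1, z.1.2, fun e => z.2 (Subtype.ext e)⟩) fun _ _ => Iff.rfl) f⟩⟩
      sdiff_subset x.2).2 rfl

end Pool.Agent.Results.MP_6e33d6_co.Yes
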